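import Pool.Agent.U916.DF.Gen

set_option autoImplicit false

/-!
# Malle's conjecture for the generalised dihedral groups of `(ℤ / p) ^ r`: upper bounds

Let `p` be an odd prime, `r ≥ 2` and `G` the generalised dihedral group of `(ℤ / p) ^ r`, of order `2 p ^ r`.
Malle's conjecture predicts the exponent `2 / (p ^ r - 1)` for the fields of degree `p ^ r` with the group `G`
and `1 / p ^ r` for their normal closures. Class field theory and the trivial bound for the `p`-torsion of the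
class groups of quadratic fields give `(2 + r) / (p ^ r - 1) + ε` and `(1 + r / 2) / p ^ r + ε`. The bounds here
have a saving of order `(r / p) ^ (2 / 3)` in the numerator instead of the order `r / p` which follows from the
published moments of the `p`-torsion.

The known facts which are used are in `GenClassFieldFacts`.
-/

namespace Pool.Agent.Results.MP_a3214d_nt.GeneralizedDihedralSaving

open Pool.Agent.U916.DF

/-- Let `p` be an odd prime and `r ≥ 2` for which the facts `GenClassFieldFacts` hold.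

(1) Let `k ≤ p`, `3 r ≤ 2 k`, `s = min (k² / (4 p²), r (1 - k² / (4 p²)) / (2 k))` and `ε > 0`. For all `X ≥ 1`
the number of the fields `L` of degree `p ^ r` with the generalised dihedral group of `(ℤ / p) ^ r` and
`|disc L| ≤ X` is at most `C X ^ ((2 + r - 2 s + ε) / (p ^ r - 1))`, and the number of their normal closures `M`
with `|disc M| ≤ X` is at most `C X ^ ((1 + r / 2 - s + ε) / p ^ r)`.

(2) If `p ≥ 100 r`, then these numbers are at most
`C X ^ ((2 + r - 3 / 4 (r / p) ^ (2 / 3)) / (p ^ r - 1))` and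
`C X ^ ((1 + r / 2 - 3 / 8 (r / p) ^ (2 / 3)) / p ^ r)`. -/
theorem result (p r : ℕ) (hp : p.Prime) (hp3 : 3 ≤ p) (hr : 2 ≤ r) (A : ℕ)
    (h : GenClassFieldFacts p r A) :
    (∀ k : ℕ, k ≤ p → 3 * r ≤ 2 * k → ∀ ε : ℝ, 0 < ε → ∃ C : ℝ, 0 < C ∧ ∀ X : ℝ, 1 ≤ X →
      ((GFields p r X).Finite ∧ ((GFields p r X).ncard : ℝ) ≤
        C * X ^ ((2 + (r : ℝ) - 2 * min ((k : ℝ) ^ 2 / (4 * (p : ℝ) ^ 2))
          ((r : ℝ) * (1 - (k : ℝ) ^ 2 / (4 * (p : ℝ) ^ 2)) / (2 * (k : ℝ))) + ε) /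
            ((p : ℝ) ^ r - 1))) ∧
      ((GClosures p r X).Finite ∧ ((GClosures p r X).ncard : ℝ) ≤
        C * X ^ ((1 + (r : ℝ) / 2 - min ((k : ℝ) ^ 2 / (4 * (p : ℝ) ^ 2))
          ((r : ℝ) * (1 - (k : ℝ) ^ 2 / (4 * (p : ℝ) ^ 2)) / (2 * (k : ℝ))) + ε) /
            (p : ℝ) ^ r))) ∧
    (100 * r ≤ p → ∃ C : ℝ, 0 < C ∧ ∀ X : ℝ, 1 ≤ X →
      ((GFields p r X).Finite ∧ ((GFields p r X).ncard : ℝ) ≤
        C * X ^ ((2 + (r : ℝ) - 3 / 4 * ((r : ℝ) / p) ^ ((2 : ℝ) / 3)) / ((p : ℝ) ^ r - 1))) ∧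
      ((GClosures p r X).Finite ∧ ((GClosures p r X).ncard : ℝ) ≤
        C * X ^ ((1 + (r : ℝ) / 2 - 3 / 8 * ((r : ℝ) / p) ^ ((2 : ℝ) / 3)) / (p : ℝ) ^ r))) := by
  have hodd : Odd p := hp.odd_of_ne_two (by omega)
  have hpR : (3 : ℝ) ≤ p := by exact_mod_cast hp3
  have hrR : (2 : ℝ) ≤ r := by exact_mod_cast hr
  have hq1 : (0 : ℝ) < (p : ℝ) ^ r := by positivity
  constructor
  · intro k hkp hrk ε hε
    obtain ⟨s, hs⟩ : ∃ s, s = min ((k : ℝ) ^ 2 / (4 * (p : ℝ) ^ 2))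
          ((r : ℝ) * (1 - (k : ℝ) ^ 2 / (4 * (p : ℝ) ^ 2)) / (2 * (k : ℝ))) := ⟨_, rfl⟩
    rw [← hs]
    have hkpR : (k : ℝ) ≤ p := by exact_mod_cast hkp
    have hs4 : s ≤ 1 / 4 := by
      rw [hs]
      refine (min_le_left _ _).trans ?_
      rw [div_le_iff₀ (by positivity)]
      have : (k : ℝ) ^ 2 ≤ (p : ℝ) ^ 2 := pow_le_pow_left₀ (by positivity) hkpR 2
      linarith
    obtain ⟨C0, hC0, hfull⟩ := Pool.Agent.U916.GT.full p k r (by omega) (by omega) hkp hrk (ε / 2)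
      (by positivity)
    obtain ⟨C, hC, hmain⟩ := gen_upper p r A hp3 hodd (by omega) h (1 + (r : ℝ) / 2 - s + ε / 2) C0
      (by linarith) hC0 (by
      intro X hX S K _ _ hS
      refine (hfull X hX S K hS).trans (le_of_eq ?_)
      rw [hs])
    refine ⟨C, hC, fun X hX => ?_⟩
    obtain ⟨⟨f1, b1⟩, f2, b2⟩ := hmain X hX
    refine ⟨⟨f1, b1.trans (le_of_eq ?_)⟩, f2, b2.trans ?_⟩
    · congr 2
      ring
    · refine mul_le_mul_of_nonneg_left (Real.rpow_le_rpow_of_exponent_le hX ?_) hC.le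
      exact div_le_div_of_nonneg_right (by linarith) (by positivity)
  · intro hrp
    have hrpR : (r : ℝ) ≤ p := by exact_mod_cast (by omega : r ≤ p)
    obtain ⟨C0, hC0, hmom⟩ := moment p r (by omega) hrp
    have h23 : ((r : ℝ) / p) ^ ((2 : ℝ) / 3) ≤ 1 :=
      Real.rpow_le_one (by positivity) ((div_le_one (by linarith)).2 hrpR) (by norm_num)
    obtain ⟨C, hC, hmain⟩ := gen_upper p r A hp3 hodd (by omega) h
      (1 + (r : ℝ) / 2 - 3 / 8 * ((r : ℝ) / p) ^ ((2 : ℝ) / 3)) C0 (by linarith) hC0 hmom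
    refine ⟨C, hC, fun X hX => ?_⟩
    obtain ⟨⟨f1, b1⟩, f2, b2⟩ := hmain X hX
    refine ⟨⟨f1, b1.trans (le_of_eq ?_)⟩, f2, b2⟩
    congr 3
    ring

end Pool.Agent.Results.MP_a3214d_nt.GeneralizedDihedralSaving
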