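import Mathlib
import Pool.Prelude.Def_F_b1b78ff3
import Pool.Agent.U902.ML.Act

/-!
# Malle's conjecture for `C₂ ≀ X` and the inverse Galois problem for a quotient of `X`

`X` is a finite group acting on a finite set `P`, the action is large (see `Large`), and `C₂ ≀ X` acts on
`P × {0, 1}`. `M` is a normal subgroup of `X`; there is no condition on the extension
`1 → M → X → X / M → 1`.

1. `M` belongs to the class `Univ` of universal kernels (file `Pool/Agent/N600/UK/Defs.lean`). For every
number field `K`: if `X / M` is a Galois group over `K`, then the number of isomorphism classes of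
extensions of `K` with group `C₂ ≀ X` and discriminant of norm at most `B` is asymptotic to `c B`, `c > 0`;
if not, there are no such extensions. So the formula of Malle's conjecture holds for `(K, C₂ ≀ X)` if and
only if `X / M` is a Galois group over `K`.

2. `M` is a direct product of wreath products `G_i ≀ S_(n_i)`, `G_i` ARBITRARY nontrivial finite groups with
trivial centre, `n_i ≥ ((3 |G_i| + 2)!) ^ 3`. If all Sylow subgroups of `X / M` are cyclic, Malle's
conjecture holds for `C₂ ≀ X` over all number fields. In general there is a surjection `Q → X / M` with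
kernel in the Frattini subgroup of the finite group `Q` such that the asymptotic formula holds over all
number fields over which `Q` is a Galois group, while there are no extensions if `X / M` is not one.

3. Large actions: if `M` is a direct product of wreath products `A_i ≀ S_(n_i)` with all `n_i ≥ 8`,
`|X / M| ≤ n_j` for some `j` and `q = |X / M| ∏ |A_i| n_i`, then the action of `X` on itself by
multiplication and all transitive faithful actions of degree at least `8 log₂ |X| q (q + 1)` are large.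
-/

set_option autoImplicit false

open Filter
open Pool.Agent.N600.UK (Univ)

namespace Pool.Agent.Results.MP_a3214d_nt.UniversalKernelExtensions

/-- The wreath product `A ≀ S_n = A ^ n ⋊ S_n`. -/
abbrev Wreath (A : Type) [Group A] (n : ℕ) : Type :=
  (Fin n → A) ⋊[mulAutArrow] Equiv.Perm (Fin n)

/-- `G ≤ S_d` is, up to a bijection `f` of `{1, ..., d}` with `P × {0, 1}`, the wreath product
`C₂ ≀ H`: it consists of all permutations `π` for which there is `h ∈ H` such that `π` maps the block
`{x} × {0, 1}` to the block `{h x} × {0, 1}`, for all `x ∈ P`. -/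
def IsC2Wreath (H P : Type) [Group H] [MulAction H P] {d : ℕ} (G : Subgroup (Equiv.Perm (Fin d))) :
    Prop :=
  ∃ f : Fin d ≃ P × Bool, ∀ π : Equiv.Perm (Fin d), π ∈ G ↔ ∃ h : H, ∀ i, (f (π i)).1 = h • (f i).1

/-- The fields `L` between `K` and its algebraic closure, of degree `d` over `K`, whose Galois group,
acting on the embeddings, is `G` (up to numbering), and whose relative discriminant has norm at most
`B` (that is, `|d_L| ≤ B |d_K| ^ d`). -/
def Ext (K : Type) [Field K] [NumberField K] (d : ℕ) (G : Subgroup (Equiv.Perm (Fin d)))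
    (B : ℝ) : Set (IntermediateField K (AlgebraicClosure K)) :=
  {L | Module.finrank K L = d ∧
    (∃ e : (L →ₐ[K] AlgebraicClosure K) ≃ Fin d, ∀ π : Equiv.Perm (Fin d),
      π ∈ G ↔ ∃ σ : AlgebraicClosure K ≃ₐ[K] AlgebraicClosure K,
        ∀ φ : L →ₐ[K] AlgebraicClosure K, e (σ.toAlgHom.comp φ) = π (e φ)) ∧
    ∃ h : NumberField L,
      ((|@NumberField.discr L _ h| : ℤ) : ℝ) ≤ B * ((|NumberField.discr K| : ℤ) : ℝ) ^ d}

/-- `N(K, G; B)`: the number of these fields up to `K`-isomorphism. -/
noncomputable def N (K : Type) [Field K] [NumberField K] (d : ℕ)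
    (G : Subgroup (Equiv.Perm (Fin d))) (B : ℝ) : ℕ :=
  Nat.card (Quot fun L L' : Ext K d G B => Nonempty (L.1 ≃ₐ[K] L'.1))

/-- The formula of Malle's conjecture for `(K, G)`. -/
def MalleOver (K : Type) [Field K] [NumberField K] (d : ℕ) (G : Subgroup (Equiv.Perm (Fin d))) :
    Prop :=
  ∃ (a c : ℝ) (b : ℕ), 0 < a ∧ 0 < c ∧ 1 ≤ b ∧
    Tendsto (fun B : ℝ => (N K d G B : ℝ) / (B ^ a * Real.log B ^ (b - 1))) atTop (nhds c)

/-- The conclusion of Malle's conjecture for `G`, over all number fields: there is `a > 0` such that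
for every number field `K` there are `c > 0` and `b ≥ 1` with
`N(K, G; B) ~ c B ^ a (log B) ^ (b - 1)`. -/
def Malle (d : ℕ) (G : Subgroup (Equiv.Perm (Fin d))) : Prop :=
  ∃ a : ℝ, 0 < a ∧ ∀ (K : Type) [Field K] [NumberField K], ∃ (c : ℝ) (b : ℕ), 0 < c ∧ 1 ≤ b ∧
    Tendsto (fun B : ℝ => (N K d G B : ℝ) / (B ^ a * Real.log B ^ (b - 1))) atTop (nhds c)

/-- `Γ` is the Galois group of a Galois extension of `K`. -/
def Occurs (K Γ : Type) [Field K] [Group Γ] : Prop :=
  ∃ (L : Type) (_ : Field L) (_ : Algebra K L), IsGalois K L ∧ Nonempty (Γ ≃* (L ≃ₐ[K] L))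

/-- The action of `H` on `P` is transitive and faithful, and there is a subgroup `U` of `H` containing no
normal subgroup except `1`, of index `q`, such that `8 q (q + 1) ≤ |P|` and `U` contains the stabilizer of
a point of `P`, or `8 log₂ |H| q (q + 1) ≤ |P|` (`log₂` rounded down). -/
structure Large (H P : Type) [Group H] [MulAction H P] : Prop where
  transitive : ∀ x y : P, ∃ h : H, h • x = y
  faithful : ∀ h : H, (∀ x : P, h • x = x) → h = 1
  large : ∃ U : Subgroup H, U.normalCore = ⊥ ∧
    ((8 * U.index * (U.index + 1) ≤ Nat.card P ∧ ∃ x : P, MulAction.stabilizer H x ≤ U) ∨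
      8 * Nat.log 2 (Nat.card H) * U.index * (U.index + 1) ≤ Nat.card P)

/-- The group `C₂ ≀ H` exists, and is transitive. -/
def Exists (H P : Type) [Group H] [MulAction H P] : Prop :=
  ∃ (d : ℕ) (G : Subgroup (Equiv.Perm (Fin d))),
    d = 2 * Nat.card P ∧ IsC2Wreath H P G ∧ ∀ i j : Fin d, ∃ g ∈ G, g i = j

/-- Over `K` the asymptotic formula `N(K, G; B) ~ c B` holds for `G = C₂ ≀ H`, `H` acting on `P`. -/
def Linear (K : Type) [Field K] [NumberField K] (H P : Type) [Group H] [MulAction H P] : Prop :=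
  ∀ (d : ℕ) (G : Subgroup (Equiv.Perm (Fin d))), IsC2Wreath H P G → ∃ c : ℝ, 0 < c ∧
    Tendsto (fun B : ℝ => (N K d G B : ℝ) / B) atTop (nhds c)

/-- Over `K` there are no extensions with group `G = C₂ ≀ H`, `H` acting on `P`. -/
def NoFields (K : Type) [Field K] [NumberField K] (H P : Type) [Group H] [MulAction H P] : Prop :=
  ∀ (d : ℕ) (G : Subgroup (Equiv.Perm (Fin d))), IsC2Wreath H P G → ∀ B : ℝ, N K d G B = 0

/-- Malle's conjecture for `C₂ ≀ X` is equivalent to the realization of `Y`, over each number field and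
over all of them. -/
def Equivalence (X P Y : Type) [Group X] [MulAction X P] [Group Y] : Prop :=
  (∀ (K : Type) [Field K] [NumberField K],
    (Occurs K Y → Linear K X P) ∧ (¬ Occurs K Y → NoFields K X P)) ∧
  ∀ (d : ℕ) (G : Subgroup (Equiv.Perm (Fin d))), IsC2Wreath X P G →
    (Malle d G ↔ ∀ (K : Type) [Field K] [NumberField K], Occurs K Y) ∧
    ∀ (K : Type) [Field K] [NumberField K], (MalleOver K d G ↔ Occurs K Y)

/-- Malle's conjecture for `C₂ ≀ X` over all number fields. -/
def Unconditional (X P : Type) [Group X] [MulAction X P] : Prop :=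
  (∀ (d : ℕ) (G : Subgroup (Equiv.Perm (Fin d))), IsC2Wreath X P G → Malle d G) ∧
  ∀ (K : Type) [Field K] [NumberField K], Linear K X P

theorem exists_group (H P : Type) [Group H] [MulAction H P] [Finite P]
    (ht : ∀ x y : P, ∃ h : H, h • x = y) : Exists H P := by
  have hcard : Nat.card (P × Bool) = 2 * Nat.card P := by
    rw [Nat.card_prod, mul_comm]
    simp
  let f : Fin (2 * Nat.card P) ≃ P × Bool := (Finite.equivFinOfCardEq hcard).symm
  let G : Subgroup (Equiv.Perm (Fin (2 * Nat.card P))) :=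
    { carrier := {π | ∃ h : H, ∀ i, (f (π i)).1 = h • (f i).1}
      one_mem' := ⟨1, fun i => by simp⟩
      mul_mem' := by
        rintro π ρ ⟨h, hh⟩ ⟨h', hh'⟩
        refine ⟨h * h', fun i => ?_⟩
        rw [Equiv.Perm.mul_apply, hh, hh', mul_smul]
      inv_mem' := by
        rintro π ⟨h, hh⟩
        refine ⟨h⁻¹, fun i => ?_⟩
        have h1 := hh (π⁻¹ i)
        rw [show π (π⁻¹ i) = i from π.apply_symm_apply i] at h1
        rw [h1, inv_smul_smul] }
  refine ⟨2 * Nat.card P, G, rfl, ⟨f, fun π => Iff.rfl⟩, fun i j => ?_⟩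
  obtain ⟨h, hh⟩ := ht (f i).1 (f j).1
  let t : Equiv.Perm (P × Bool) := (MulAction.toPerm h).prodCongr (Equiv.swap (f i).2 (f j).2)
  refine ⟨f.trans (t.trans f.symm), ⟨h, fun x => ?_⟩, ?_⟩
  · simp [t]
  · change f.symm (t (f i)) = j
    rw [Equiv.symm_apply_eq]
    exact Prod.ext (by simp [t, hh]) (by simp [t])

theorem real_iff (K Γ : Type) [Field K] [Group Γ] :
    Nfff32c05.IsRealizable K Γ ↔ Occurs K Γ := by
  constructor
  · rintro ⟨⟨L, i1, i2, i3, e⟩⟩
    exact ⟨L, i1, i2, i3, ⟨e⟩⟩
  · rintro ⟨L, i1, i2, i3, ⟨e⟩⟩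
    exact ⟨⟨⟨L, i1, i2, i3, e⟩⟩⟩

section

variable {H P : Type} [Group H] [Finite H] [MulAction H P] [Finite P] [Nonempty P]

omit [Finite H] [Finite P] [Nonempty P] in
theorem pre (hL : Large H P) : MulAction.IsPretransitive H P := ⟨hL.transitive⟩

omit [Finite H] [Finite P] [Nonempty P] in
theorem fai (hL : Large H P) : FaithfulSMul H P := ⟨fun {g h} hgh => by
  have := hL.faithful (h⁻¹ * g) (fun x => by rw [mul_smul, hgh x, inv_smul_smul])
  exact (inv_mul_eq_one.1 this).symm⟩

theorem linear (K : Type) [Field K] [NumberField K] (hL : Large H P)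
    (hK : Nfff32c05.IsRealizable K H) : Linear K H P := by
  intro d G hG
  have i1 := pre hL
  have i3 := fai hL
  exact Pool.Agent.U737.MN.asymp_iso Pool.Agent.U737.MN.inp K H P hL.large
    (Pool.Agent.U902.ML.gal_of_realizable K H hK) G hG

theorem real_of_ne (K : Type) [Field K] [NumberField K] (hL : Large H P) (d : ℕ)
    (G : Subgroup (Equiv.Perm (Fin d))) (hG : IsC2Wreath H P G) (B : ℝ) (h : N K d G B ≠ 0) :
    Nfff32c05.IsRealizable K H := by
  have i1 := pre hL
  have i3 := fai hL
  by_contra hne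
  apply h
  have h1 : IsEmpty (Ext K d G B) := ⟨fun L => hne
    (@Pool.Agent.U902.ML.realizable_of_cnt K H P _ _ _ _ _ _ _ _ _ d G hG B L.1 L.2)⟩
  have h2 : IsEmpty (Quot fun L L' : Ext K d G B => Nonempty (L.1 ≃ₐ[K] L'.1)) :=
    ⟨fun q => by
      obtain ⟨x, -⟩ := Quot.exists_rep q
      exact h1.elim x⟩
  exact Nat.card_of_isEmpty

theorem noFields (K : Type) [Field K] [NumberField K] (hL : Large H P)
    (hK : ¬ Nfff32c05.IsRealizable K H) : NoFields K H P := by
  intro d G hG B
  by_contra hB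
  exact hK (real_of_ne K hL d G hG B hB)

end

theorem ne_of_lim (K : Type) [Field K] [NumberField K] (d : ℕ)
    (G : Subgroup (Equiv.Perm (Fin d))) (f : ℝ → ℝ) (c : ℝ) (hc : 0 < c)
    (h : Tendsto (fun B : ℝ => (N K d G B : ℝ) / f B) atTop (nhds c)) : ∃ B, N K d G B ≠ 0 := by
  obtain ⟨B, hB⟩ := (h.eventually (lt_mem_nhds hc)).exists
  refine ⟨B, fun h0 => ?_⟩
  rw [h0] at hB
  simp at hB

theorem equivalence_of (X P Y : Type) [Group X] [Finite X] [MulAction X P] [Finite P] [Nonempty P]
    [Group Y] (hL : Large X P)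
    (hr : ∀ (K : Type) [Field K] [NumberField K],
      Nfff32c05.IsRealizable K X ↔ Nfff32c05.IsRealizable K Y) : Equivalence X P Y := by
  have key : ∀ (K : Type) [Field K] [NumberField K], Occurs K Y → Linear K X P :=
    fun K _ _ h => linear K hL ((hr K).2 ((real_iff K Y).2 h))
  have back : ∀ (K : Type) [Field K] [NumberField K] (d : ℕ) (G : Subgroup (Equiv.Perm (Fin d)))
      (_ : IsC2Wreath X P G) (B : ℝ), N K d G B ≠ 0 → Occurs K Y := fun K _ _ d G hG B h =>
    (real_iff K Y).1 ((hr K).1 (real_of_ne K hL d G hG B h))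
  refine ⟨fun K _ _ => ⟨key K, fun h => noFields K hL fun h2 =>
    h ((real_iff K Y).1 ((hr K).1 h2))⟩, fun d G hG => ⟨⟨?_, ?_⟩, fun K _ _ => ⟨?_, ?_⟩⟩⟩
  · rintro ⟨a, -, h⟩ K _ _
    obtain ⟨c, b, hc0, -, hlim⟩ := h K
    obtain ⟨B, hB⟩ := ne_of_lim K d G _ c hc0 hlim
    exact back K d G hG B hB
  · intro h
    refine ⟨1, one_pos, fun K _ _ => ?_⟩
    obtain ⟨c, hc0, hlim⟩ := key K (h K) d G hG
    exact ⟨c, 1, hc0, le_rfl, by simpa using hlim⟩
  · rintro ⟨a, c, b, -, hc0, -, hlim⟩
    obtain ⟨B, hB⟩ := ne_of_lim K d G _ c hc0 hlim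
    exact back K d G hG B hB
  · intro h
    obtain ⟨c, hc0, hlim⟩ := key K h d G hG
    exact ⟨1, c, 1, one_pos, hc0, le_rfl, by simpa using hlim⟩

theorem unconditional_of (X P : Type) [Group X] [MulAction X P]
    (h : ∀ (K : Type) [Field K] [NumberField K], Linear K X P) : Unconditional X P := by
  refine ⟨fun d G hG => ⟨1, one_pos, fun K _ _ => ?_⟩, h⟩
  obtain ⟨c, hc0, hlim⟩ := h K d G hG
  exact ⟨c, 1, hc0, le_rfl, by simpa using hlim⟩

theorem quot_real (K : Type) [Field K] [NumberField K] (X : Type) [Group X] [Finite X]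
    (M : Subgroup X) [M.Normal] (h : Nfff32c05.IsRealizable K X) : Occurs K (X ⧸ M) := by
  obtain ⟨L, i1, i2, i3, i4, ⟨f⟩⟩ := Pool.Agent.TH59.WX.exists_gal_of K X h
  exact (real_iff K _).1 (Pool.Agent.H391R2.isRealizable_quotient L
    ((QuotientGroup.mk' M).comp f.symm.toMonoidHom)
    ((QuotientGroup.mk'_surjective M).comp f.symm.surjective))

/-- First part: kernels in the class `Univ`. -/
def First : Prop :=
  ∀ (T : Type) [Group T] [Finite T], Univ T → ∀ (X : Type) [Group X] [Finite X]
    (M : Subgroup X) [M.Normal], Nonempty (M ≃* T) →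
    ∀ (P : Type) [MulAction X P] [Finite P] [Nonempty P], Large X P → Equivalence X P (X ⧸ M)

/-- Second part: direct products of wreath products of arbitrary groups with trivial centre. -/
def Second : Prop :=
  ∀ (I : Type) [Finite I] (G : I → Type) [∀ i, Group (G i)] [∀ i, Finite (G i)]
    [∀ i, Nontrivial (G i)] (n : I → ℕ), (∀ i, Subgroup.center (G i) = ⊥) →
    (∀ i, ((3 * Nat.card (G i) + 2).factorial) ^ 3 ≤ n i) →
    ∀ (X : Type) [Group X] [Finite X] (M : Subgroup X) [M.Normal],
      Nonempty (M ≃* ∀ i, Wreath (G i) (n i)) →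
      ((∀ (p : ℕ) [Fact p.Prime] (S : Sylow p (X ⧸ M)), IsCyclic S) →
        ∀ (P : Type) [MulAction X P] [Finite P] [Nonempty P], Large X P → Unconditional X P) ∧
      ∃ (Q : Type) (_ : Group Q) (_ : Finite Q) (π : Q →* X ⧸ M), Function.Surjective π ∧
        π.ker ≤ frattini Q ∧ (∀ p : ℕ, p.Prime → p ∣ Nat.card Q → p ∣ Nat.card (X ⧸ M)) ∧
        ∀ (P : Type) [MulAction X P] [Finite P] [Nonempty P], Large X P →
          ∀ (K : Type) [Field K] [NumberField K],
            (Occurs K Q → Linear K X P) ∧ (¬ Occurs K (X ⧸ M) → NoFields K X P)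

/-- Third part: large actions, and the existence of the groups `C₂ ≀ X`. -/
def Third : Prop :=
  (∀ (X P : Type) [Group X] [MulAction X P] [Finite P], Large X P → Exists X P) ∧
  ∀ (I : Type) [Fintype I] (A : I → Type) [∀ i, Group (A i)] [∀ i, Finite (A i)] (n : I → ℕ),
    (∀ i, 8 ≤ n i) → ∀ (X : Type) [Group X] [Finite X] (M : Subgroup X) [M.Normal],
    Nonempty (M ≃* ∀ i, Wreath (A i) (n i)) → (∃ j, Nat.card (X ⧸ M) ≤ n j) →
    Large X X ∧ ∀ (q : ℕ), q = (∏ i, Nat.card (A i) * n i) * Nat.card (X ⧸ M) →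
      ∀ (P : Type) [MulAction X P], (∀ x y : P, ∃ h : X, h • x = y) →
        (∀ h : X, (∀ x : P, h • x = x) → h = 1) →
        8 * Nat.log 2 (Nat.card X) * q * (q + 1) ≤ Nat.card P → Large X P

theorem first : First := by
  intro T _ _ hT X _ _ M _ hM P _ _ _ hL
  exact equivalence_of X P (X ⧸ M) hL fun K _ _ =>
    hT.real_hilb K (Pool.Agent.H391R2.T4.hilb_numberField K) X M hM inferInstance

theorem second : Second := by
  intro I _ G _ _ _ n hZ hn X _ _ M _ hM
  refine ⟨?_, ?_⟩
  · intro hz P _ _ _ hL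
    have hz' : IsZGroup (X ⧸ M) := ⟨fun p hp S => by
      have := Fact.mk hp
      exact hz p S⟩
    exact unconditional_of X P fun K _ _ =>
      linear K hL ((Pool.Agent.N600.ZQ.z_main hZ hn X M hM inferInstance).1 K)
  · obtain ⟨Q, i1, i2, π, hπ, hQ⟩ := Pool.Agent.N600.ZQ.frat_main hZ hn X M hM inferInstance
    refine ⟨Q, i1, i2, π, hπ.1, hπ.2, hπ.prime, fun P _ _ _ hL K _ _ => ⟨fun h => ?_, fun h => ?_⟩⟩
    · exact linear K hL (hQ.1 K ((real_iff K Q).2 h))
    · exact noFields K hL fun h2 => h (quot_real K X M h2)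

theorem third : Third := by
  refine ⟨fun X P _ _ _ hL => exists_group X P hL.transitive, ?_⟩
  intro I _ A _ _ n hn X _ _ M _ ⟨e⟩ ⟨j, hj⟩
  obtain ⟨U, hU, hi⟩ := Pool.Agent.U902.ML.prod_core M A n hn e
  have hb := Pool.Agent.U902.ML.prod_bound M A n hn e j hj U.index hi
  refine ⟨⟨fun x y => ⟨y * x⁻¹, by simp⟩, fun h hh => by simpa using hh 1, U, hU, Or.inl ⟨hb, 1, ?_⟩⟩,
    fun q hq P _ ht hfa hc => ⟨ht, hfa, U, hU, Or.inr (by rw [hi, ← hq]; exact hc)⟩⟩
  intro x hx
  rw [MulAction.mem_stabilizer_iff, smul_eq_mul, mul_one] at hx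
  rw [hx]
  exact U.one_mem

end Pool.Agent.Results.MP_a3214d_nt.UniversalKernelExtensions

open Pool.Agent.Results.MP_a3214d_nt.UniversalKernelExtensions in
/-- Malle's conjecture for `C₂ ≀ X`, `X` acting on `P`, is equivalent to the realization of `X / M` if `M` is
a universal kernel (first part); it holds over all number fields if `M` is a direct product of wreath
products of groups with trivial centre and all Sylow subgroups of `X / M` are cyclic (second part). -/
theorem Pool.Agent.Results.MP_a3214d_nt.UniversalKernelExtensions.result :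
    First ∧ Second ∧ Third :=
  ⟨first, second, third⟩
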