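import Pool.Agent.U376.RL.Wr

/-!
# Wreath products `S_n ≀ H`, `n` odd: lower bounds with local conditions

Let `K` be any number field, `M` any extension of degree `m` of `K`, `H` its Galois group as a permutation
group of degree `m`, and `n ≥ 3` odd. Prescribe

* at finitely many primes of `M` a residue class: a positive integer `N` and a monic polynomial `p` over
  `𝓞 M` of degree `n` without term of degree `n - 1`, which is irreducible modulo the primes over `2`
  dividing `N` and whose discriminant is, for the primes `𝔭` dividing `N` which are not over `2`, not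
  divisible by `𝔭`, or not by `𝔭 ^ 2` if `𝔭 ^ 2` divides `N`;
* at every real embedding `σ` of `M` an odd number `r σ ≤ n`; so every signature over `M` is allowed.

The number of the extensions `L` of `M` of degree `n` which have the full wreath product `S_n ≀ H` as
Galois group over `K`, exactly `r σ` real embeddings over each `σ`, a ring of integers `𝓞 L = 𝓞 M [t]` with
a minimal polynomial of `t` congruent to `p` modulo `N` and with squarefree discriminant, and absolute
discriminant at most `X`, is at least `c X ^ (1 / 2 + 1 / n)` for large `X`.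

This is the lower bound of `MP_a3214d_nt/WreathSymmetricLowerBound`, with local conditions and for every `M`
with this group. (The absolute value of the discriminant of `L` is `|disc K| ^ (m n)` times the norm of
the relative discriminant, and an isomorphism class of extensions of `K` consists of at most `m n`
subfields of the algebraic closure, so the same holds for the number `N(K, G; X)` of the problem, with
the conditions.)

The proof. Project PF (2-Selmer groups of hyperelliptic Jacobians over number fields) is redone for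
polynomials in a residue class whose coefficients are near to the multiples `t ^ (n - j) a_j` of a fixed
shape `(a_j)` at the infinite places: this is an open subset of the box of polynomials of bounded
height, so it contains a positive proportion. The shape at the real embedding `σ` is
`x (x ^ 2 - 1) ... (x ^ 2 - s ^ 2) (x ^ 2 + 1) ... (x ^ 2 + k ^ 2)` with `r σ = 2 s + 1`; polynomials near
to it have as many real zeros, since the zeros are simple. The rest is the method of the projects CF and WR.

Uses the libraries PF, CF and WR (helper783 and coauthors).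
-/

set_option autoImplicit false
set_option linter.all false

namespace Pool.Agent.Results.MP_a3214d_nt.WreathLocalConditions

open NumberField Polynomial

/-- The Galois group of `K` acts on the set of embeddings of `L`, numbered by `ι` in a suitable way, as
the permutation group `G` of `ι`. -/
def HasGroup {K : Type} [Field K] (L : IntermediateField K (AlgebraicClosure K)) {ι : Type}
    (G : Subgroup (Equiv.Perm ι)) : Prop :=
  ∃ e : (L →ₐ[K] AlgebraicClosure K) ≃ ι, ∀ τ : Equiv.Perm ι, τ ∈ G ↔
    ∃ σ : AlgebraicClosure K ≃ₐ[K] AlgebraicClosure K, ∀ φ : L →ₐ[K] AlgebraicClosure K,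
      e (σ.toAlgHom.comp φ) = τ (e φ)

/-- The extensions of degree `d` of `K` inside the algebraic closure of `K` with Galois group `G` whose
absolute discriminant has absolute value at most `X`. -/
def FieldsWithGroup (K : Type) [Field K] [NumberField K] (d : ℕ) {ι : Type}
    (G : Subgroup (Equiv.Perm ι)) (X : ℝ) : Set (IntermediateField K (AlgebraicClosure K)) :=
  {L | Module.finrank K L = d ∧
    (∃ h : NumberField L, ((|@NumberField.discr L _ h| : ℤ) : ℝ) ≤ X) ∧ HasGroup L G}

/-- The wreath product of the symmetric group of degree `n` with the permutation group `H` of degree `m`: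
all permutations of `m` blocks of length `n` which permute the blocks by an element of `H`. -/
def Wreath {m : ℕ} (n : ℕ) (H : Subgroup (Equiv.Perm (Fin m))) :
    Subgroup (Equiv.Perm (Fin m × Fin n)) where
  carrier := {τ | ∃ h ∈ H, ∀ x, (τ x).1 = h x.1}
  mul_mem' := by
    rintro a b ⟨h, hh, h1⟩ ⟨k, hk, h2⟩
    exact ⟨h * k, H.mul_mem hh hk, fun x => by
      rw [Equiv.Perm.mul_apply, Equiv.Perm.mul_apply, h1, h2]⟩
  one_mem' := ⟨1, H.one_mem, fun x => rfl⟩
  inv_mem' := by
    rintro a ⟨h, hh, h1⟩
    refine ⟨h⁻¹, H.inv_mem hh, fun x => ?_⟩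
    have e1 : a (a⁻¹ x) = x := Equiv.apply_symm_apply a x
    have e2 : h⁻¹ (h (a⁻¹ x).1) = (a⁻¹ x).1 := Equiv.symm_apply_apply h _
    have e3 := h1 (a⁻¹ x)
    rw [e1] at e3
    rw [e3, e2]

/-- The condition on the residue class of `p` modulo `N` at the primes which contain `N`. -/
def Admissible (M : Type) [Field M] (N : ℕ) (p : (𝓞 M)[X]) : Prop :=
  ∀ 𝔭 : Ideal (𝓞 M), 𝔭.IsPrime → 𝔭 ≠ ⊥ → (N : 𝓞 M) ∈ 𝔭 →
    ((2 : 𝓞 M) ∈ 𝔭 → Irreducible (p.map (Ideal.Quotient.mk 𝔭))) ∧
    ((2 : 𝓞 M) ∉ 𝔭 → p.discr ∉ 𝔭 ∨ ((N : 𝓞 M) ∈ 𝔭 ^ 2 ∧ p.discr ∉ 𝔭 ^ 2))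

/-- The extensions `L` of `M` inside the algebraic closure of `K` which have, as extensions of `K`, the
degree `d`, the Galois group `G` and absolute discriminant at most `X`, with exactly `r σ` real embeddings
over every real embedding `σ` of `M`, and whose ring of integers is generated over that of `M` by one element
`t` whose minimal polynomial is congruent to `p` modulo `N` and has a discriminant which is not divisible by
the square of a prime. -/
def LocalFields (K : Type) [Field K] [NumberField K] (M : IntermediateField K (AlgebraicClosure K))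
    (d : ℕ) {ι : Type} (G : Subgroup (Equiv.Perm ι)) (X : ℝ) (N : ℕ) (p : (𝓞 M)[X])
    (r : (M →+* ℝ) → ℕ) : Set (IntermediateField M (AlgebraicClosure K)) :=
  {L | L.restrictScalars K ∈ FieldsWithGroup K d G X ∧
    (∀ σ : M →+* ℝ, Nat.card {φ : L →+* ℝ // φ.comp (algebraMap M L) = σ} = r σ) ∧
    ∃ t : 𝓞 L, Algebra.adjoin (𝓞 M) {t} = ⊤ ∧
      (∀ j, (N : 𝓞 M) ∣ (minpoly (𝓞 M) t).coeff j - p.coeff j) ∧
      ∀ 𝔭 : Ideal (𝓞 M), 𝔭.IsPrime → 𝔭 ≠ ⊥ → (minpoly (𝓞 M) t).discr ∉ 𝔭 ^ 2}

/-- Let `M` be an extension of degree `m` of the number field `K` with Galois group `H`. For every odd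
`n ≥ 3`, every admissible residue class of polynomials of degree `n` over `𝓞 M` without term of degree
`n - 1` and all odd numbers `r σ ≤ n`, the number of the extensions `L` of degree `n` of `M` with Galois
group `S_n ≀ H` over `K`, absolute discriminant at most `X`, `r σ` real embeddings over each real embedding
`σ` of `M`, and a generator of the ring of integers over that of `M` in this residue class whose
minimal polynomial has a squarefree discriminant, is at least `c X ^ (1 / 2 + 1 / n)`. -/
theorem result : ∀ (K : Type) [Field K] [NumberField K] (m : ℕ) (H : Subgroup (Equiv.Perm (Fin m)))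
    (M : IntermediateField K (AlgebraicClosure K)), FiniteDimensional K M → HasGroup M H →
    ∀ n : ℕ, 3 ≤ n → Odd n →
    ∀ N : ℕ, 0 < N → ∀ p : (𝓞 M)[X], p.Monic → p.natDegree = n → p.coeff (n - 1) = 0 →
    Admissible M N p → ∀ r : (M →+* ℝ) → ℕ, (∀ σ, Odd (r σ) ∧ r σ ≤ n) →
    ∃ c : ℝ, 0 < c ∧ ∃ X₀ : ℝ, ∀ X : ℝ, X₀ ≤ X →
      (FieldsWithGroup K (m * n) (Wreath n H) X).Finite ∧
      c * X ^ ((1 : ℝ) / 2 + 1 / (n : ℝ)) ≤
        ((LocalFields K M (m * n) (Wreath n H) X N p r).ncard : ℝ) ∧
      (LocalFields K M (m * n) (Wreath n H) X N p r).ncard ≤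
        (FieldsWithGroup K (m * n) (Wreath n H) X).ncard := by
  intro K _ _ m H M hMf hMH n hn3 hodd N hN p hpm hd ht hadm r hr
  obtain ⟨g, rfl⟩ := hodd
  rw [Nat.add_sub_cancel] at ht
  have hMN : NumberField M := NumberField.of_module_finite K M
  have hm : Module.finrank K M = m := by
    obtain ⟨e, -⟩ := hMH
    have h1 : Fintype.card (M →ₐ[K] AlgebraicClosure K) = Module.finrank K M := AlgHom.card K M _
    have h2 := Fintype.card_congr e
    rw [Fintype.card_fin] at h2
    exact h1.symm.trans h2
  obtain ⟨c, hc, X₀, h⟩ := Pool.Agent.U376.RL.wreathLocal g K M (by omega) N hN p hpm hd ht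
    (fun 𝔭 h1 h2 h3 h4 => (hadm 𝔭 h1 h2 h3).1 h4)
    (fun 𝔭 h1 h2 h3 h4 => (hadm 𝔭 h1 h2 h3).2 h4) r (fun σ => (hr σ).1) (fun σ => (hr σ).2)
  refine ⟨c, hc, X₀, fun X hX => ?_⟩
  obtain ⟨hfin, T, hT, hle⟩ := h X hX
  rw [hm] at hfin hT
  have hfin' : (FieldsWithGroup K (m * (2 * g + 1)) (Wreath (2 * g + 1) H) X).Finite :=
    hfin.subset fun L hL => ⟨hL.1, hL.2.1⟩
  have hinj : Function.Injective (fun L : IntermediateField M (AlgebraicClosure K) =>
      L.restrictScalars K) := IntermediateField.restrictScalars_injective K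
  have himg : (fun L : IntermediateField M (AlgebraicClosure K) => L.restrictScalars K) ''
      LocalFields K M (m * (2 * g + 1)) (Wreath (2 * g + 1) H) X N p r ⊆
      FieldsWithGroup K (m * (2 * g + 1)) (Wreath (2 * g + 1) H) X := by
    rintro _ ⟨L, hL, rfl⟩
    exact hL.1
  have hfinL : (LocalFields K M (m * (2 * g + 1)) (Wreath (2 * g + 1) H) X N p r).Finite :=
    (hfin'.subset himg).of_finite_image hinj.injOn
  have hsub : T ⊆ LocalFields K M (m * (2 * g + 1)) (Wreath (2 * g + 1) H) X N p r := by
    intro L hL
    obtain ⟨⟨h1, h2, h3⟩, h4, h5⟩ := hT L hL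
    exact ⟨⟨h1, ⟨h2, h3⟩, Pool.Agent.N783.CF.hasGroup_wreath M (L.restrictScalars K) H hMH
      (by rw [h1, hm]) h4⟩, h5⟩
  refine ⟨hfin', hle.trans ?_, ?_⟩
  · exact_mod_cast Set.ncard_le_ncard hsub hfinL
  · rw [← Set.ncard_image_of_injective _ hinj]
    exact Set.ncard_le_ncard himg hfin'

end Pool.Agent.Results.MP_a3214d_nt.WreathLocalConditions
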